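import Pool.Agent.L0h86.JR.Stm

/-!
# JR/LAWR: the joint law in the residue classes

The first part (sets of square-free integers defined by conditions on the class) is taken from
`Pool/Agent/L0h74/AP/Cls.lean`, the last part follows `Pool/Agent/L0h2/P/NUM.lean`.
-/

set_option autoImplicit false
set_option linter.unusedSectionVars false
set_option linter.unusedVariables false
set_option maxHeartbeats 1000000

open scoped Classical

namespace Pool.Agent.L0h57.JR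

open Finset Filter
open scoped Topology
open Pool.Agent.L0h74.EV (SE)
open Pool.Agent.L0h74.AP (Cp Cg GS GSg card_low tendsto_div_nat)
open Pool.Agent.L0h86.JR (amR Sr GdR PatR HyR sysR Cr NQ sqf FamR nR S_DR S_HYR S_TRR S_LAWR)

/-- the class of an integer: the sign, the part composed of the primes of `u`, the rest modulo `u` -/
def key (u : ℕ) (e : ℤ) : ℤ × ℕ × ℕ :=
  (e.sign, Nat.gcd e.natAbs u, (e.natAbs / Nat.gcd e.natAbs u) % u)

/-- `T` depends on the class only -/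
def ClassFn (u : ℕ) (T : ℤ → Prop) : Prop :=
  ∀ e e' : ℤ, Squarefree e → Squarefree e' → key u e = key u e' → (T e ↔ T e')

/-- a height function on the square-free integers -/
def HtFn (u : ℕ) (N : ℤ → ℕ) : Prop :=
  ∃ F : ℤ → ℕ → ℕ → ℕ, (∀ s g a, g ≤ F s g a) ∧
    ∀ (s : ℤ) (g m : ℕ), (s = 1 ∨ s = -1) → N (s * g * m) = F s g (m % u) * m

theorem key_mul {u : ℕ} {s : ℤ} (hs : s = 1 ∨ s = -1) {g m : ℕ} (hg : g ∣ u) (hg0 : 0 < g)
    (hm : Nat.Coprime m u) (hm0 : 0 < m) : key u (s * g * m) = (s, g, m % u) := by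
  have hn : (s * g * m : ℤ).natAbs = g * m := by
    rw [Int.natAbs_mul, Int.natAbs_mul, Int.natAbs_natCast, Int.natAbs_natCast]
    rcases hs with rfl | rfl <;> simp
  have hg1 : Nat.gcd (g * m) u = g := by
    rw [Nat.Coprime.gcd_mul_right_cancel g hm]
    exact Nat.gcd_eq_left hg
  have hsg : (s * g * m : ℤ).sign = s := by
    rw [Int.sign_mul, Int.sign_mul, Int.sign_natCast_of_ne_zero hg0.ne',
      Int.sign_natCast_of_ne_zero hm0.ne']
    rcases hs with rfl | rfl <;> simp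
  unfold key
  rw [hn, hg1, hsg, Nat.mul_div_cancel_left m hg0]

/-- the decomposition of a square-free integer -/
theorem dec {u : ℕ} (hu : 0 < u) {e : ℤ} (he : Squarefree e) {s : ℤ} {g a : ℕ}
    (hk : key u e = (s, g, a)) :
    (s = 1 ∨ s = -1) ∧ 0 < g ∧ g ∣ u ∧ Squarefree g ∧ a < u ∧ Nat.Coprime a u ∧
      ∃ m : ℕ, e = s * g * m ∧ 0 < m ∧ m % u = a ∧ Squarefree m ∧ Nat.Coprime m u := by
  have he0 : e ≠ 0 := he.ne_zero
  have hn0 : e.natAbs ≠ 0 := Int.natAbs_ne_zero.2 he0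
  have hsq : Squarefree e.natAbs := Int.squarefree_natAbs.2 he
  unfold key at hk
  rw [Prod.mk.injEq, Prod.mk.injEq] at hk
  obtain ⟨h1, h2, h3⟩ := hk
  have hgpos : 0 < g := by
    rw [← h2]
    exact Nat.gcd_pos_of_pos_right _ hu
  have hgu : g ∣ u := by rw [← h2]; exact Nat.gcd_dvd_right _ _
  have hge : g ∣ e.natAbs := by rw [← h2]; exact Nat.gcd_dvd_left _ _
  obtain ⟨m, hm⟩ := hge
  have hm0 : 0 < m := by
    rcases Nat.eq_zero_or_pos m with h | h
    · rw [h, mul_zero] at hm; exact absurd hm hn0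
    · exact h
  rw [h2, hm, Nat.mul_div_cancel_left m hgpos] at h3
  have hsq' := hsq
  rw [hm, Nat.squarefree_mul_iff] at hsq'
  have hcop : Nat.Coprime m u := by
    rw [Nat.coprime_iff_gcd_eq_one]
    by_contra hne
    obtain ⟨p, hp, hd⟩ := Nat.exists_prime_and_dvd hne
    have hpm := hd.trans (Nat.gcd_dvd_left _ _)
    have hpu := hd.trans (Nat.gcd_dvd_right _ _)
    have hpe : p ∣ e.natAbs := by rw [hm]; exact Dvd.dvd.mul_left hpm g
    have hpg : p ∣ g := by rw [← h2]; exact Nat.dvd_gcd hpe hpu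
    have h5 := Nat.dvd_gcd hpg hpm
    rw [hsq'.1] at h5
    exact hp.one_lt.ne' (Nat.dvd_one.1 h5)
  have hs : s = 1 ∨ s = -1 := by
    rw [← h1]
    rcases lt_or_gt_of_ne he0 with h | h
    · right; exact Int.sign_eq_neg_one_of_neg h
    · left; exact Int.sign_eq_one_of_pos h
  refine ⟨hs, hgpos, hgu, hsq'.2.1, ?_, ?_, m, ?_, hm0, h3, hsq'.2.2, hcop⟩
  · rw [← h3]; exact Nat.mod_lt _ hu
  · rw [← h3, Nat.coprime_iff_gcd_eq_one, ← Nat.gcd_rec, Nat.gcd_comm]
    exact hcop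
  · rw [mul_assoc, ← Nat.cast_mul, ← hm, ← h1]
    exact (Int.sign_mul_natAbs e).symm

theorem fiber {u : ℕ} {N : ℤ → ℕ} {s : ℤ} (hs : s = 1 ∨ s = -1) {g a : ℕ} (hg : Squarefree g)
    (hgu : g ∣ u) (hc : Cp u a) {F : ℕ} (hF : g ≤ F)
    (hN : ∀ m : ℕ, m % u = a → N (s * g * m) = F * m) (X : ℕ) (P : ℤ → Prop) :
    ((Icc (-(X : ℤ)) X).filter fun e => Squarefree e ∧ N e ≤ X ∧ key u e = (s, g, a) ∧ P e).card =
      ((GS u a (X / F)).filter fun m : ℕ => P (s * g * m)).card := by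
  have hg0 : 0 < g := Nat.pos_of_ne_zero hg.ne_zero
  have hF0 : 0 < F := lt_of_lt_of_le hg0 hF
  have hcop : ∀ m : ℕ, m % u = a → Nat.Coprime m u := by
    intro m hm
    rw [Nat.coprime_iff_gcd_eq_one, Nat.gcd_comm, Nat.gcd_rec, hm]
    exact hc.cop
  symm
  refine card_bij (fun m _ => s * g * m) ?_ ?_ ?_
  · intro m hm
    rw [mem_filter, GS, mem_filter, mem_Icc] at hm
    obtain ⟨⟨⟨h1, h2⟩, h3, h4⟩, h5⟩ := hm
    have hn : (s * g * m : ℤ).natAbs = g * m := by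
      rw [Int.natAbs_mul, Int.natAbs_mul, Int.natAbs_natCast, Int.natAbs_natCast]
      rcases hs with rfl | rfl <;> simp
    have h6 : F * m ≤ X := by
      have := Nat.mul_le_mul_left F h2
      exact this.trans (Nat.mul_div_le X F)
    have h7 : (s * g * m : ℤ).natAbs ≤ X := by
      rw [hn]
      exact (Nat.mul_le_mul_right m hF).trans h6
    rw [mem_filter, mem_Icc]
    refine ⟨⟨by omega, by omega⟩, ?_, ?_, ?_, h5⟩
    · rw [← Int.squarefree_natAbs, hn, Nat.squarefree_mul_iff]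
      exact ⟨Nat.Coprime.coprime_dvd_left hgu (hcop m h4).symm, hg, h3⟩
    · rw [hN m h4]
      exact h6
    · rw [key_mul hs hgu hg0 (hcop m h4) h1, h4]
  · intro m _ m' _ he
    have hs0 : s ≠ 0 := by rcases hs with rfl | rfl <;> norm_num
    have h1 : (s * g : ℤ) ≠ 0 := mul_ne_zero hs0 (by exact_mod_cast hg0.ne')
    have := mul_left_cancel₀ h1 he
    exact_mod_cast this
  · intro e he
    rw [mem_filter, mem_Icc] at he
    obtain ⟨⟨h1, h2⟩, h3, h4, h5, h6⟩ := he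
    obtain ⟨-, -, -, -, -, -, m, hm, hm0, hma, hms, -⟩ := dec hc.pos h3 h5
    refine ⟨m, ?_, hm.symm⟩
    rw [mem_filter, GS, mem_filter, mem_Icc]
    rw [hm, hN m hma] at h4
    refine ⟨⟨⟨hm0, ?_⟩, hms, hma⟩, by rw [← hm]; exact h6⟩
    rw [Nat.le_div_iff_mul_le hF0, mul_comm]
    exact h4

/-- the keys which occur -/
noncomputable def KK' (u : ℕ) (T : ℤ → Prop) : Finset (ℤ × ℕ × ℕ) :=
  ((({1, -1} : Finset ℤ) ×ˢ (u.divisors ×ˢ range u))).filter fun k =>
    ∃ e : ℤ, Squarefree e ∧ key u e = k ∧ T e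

/-- the count -/
noncomputable def cnt (N : ℤ → ℕ) (T : ℤ → Prop) (X : ℕ) : ℕ :=
  ((Icc (-(X : ℤ)) X).filter fun e => Squarefree e ∧ N e ≤ X ∧ T e).card

theorem cnt_eq {u : ℕ} (hu : 14 ∣ u) (hu0 : 0 < u) {N : ℤ → ℕ} {F : ℤ → ℕ → ℕ → ℕ}
    (hF : ∀ s g a, g ≤ F s g a)
    (hN : ∀ (s : ℤ) (g m : ℕ), (s = 1 ∨ s = -1) → N (s * g * m) = F s g (m % u) * m)
    {T : ℤ → Prop}
    (hT : ClassFn u T) (X : ℕ) (P T' : ℤ → Prop) (hT' : ∀ e, T' e ↔ T e ∧ P e) :
    cnt N T' X =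
      ∑ k ∈ KK' u T, ((GS u k.2.2 (X / F k.1 k.2.1 k.2.2)).filter fun m : ℕ =>
        P (k.1 * k.2.1 * m)).card := by
  unfold cnt
  rw [Finset.card_eq_sum_card_fiberwise (f := key u) (t := KK' u T)]
  · refine Finset.sum_congr rfl fun k hk => ?_
    obtain ⟨s, g, a⟩ := k
    rw [KK', mem_filter] at hk
    obtain ⟨-, e₁, he₁, hke, hTe⟩ := hk
    obtain ⟨hs, hg0, hgu, hgs, hau, hac, -⟩ := dec hu0 he₁ hke
    have hc : Cp u a := ⟨hu, hu0, hau, hac⟩
    rw [← fiber (N := N) hs hgs hgu hc (hF s g a)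
      (fun m hm => by rw [hN s g m hs, hm]) X P]
    congr 1
    ext e
    rw [mem_filter, mem_filter, mem_filter]
    rw [hT' e]
    constructor
    · rintro ⟨⟨h1, h2, h3, h4, h5⟩, h6⟩
      exact ⟨h1, h2, h3, h6, h5⟩
    · rintro ⟨h1, h2, h3, h6, h5⟩
      exact ⟨⟨h1, h2, h3, (hT e e₁ h2 he₁ (h6.trans hke.symm)).2 hTe, h5⟩, h6⟩
  · intro e he
    rw [Finset.mem_coe, mem_filter] at he
    obtain ⟨h1, h2, h3, h45⟩ := he
    obtain ⟨h4, h5⟩ := (hT' e).1 h45
    rw [Finset.mem_coe, KK', mem_filter]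
    refine ⟨?_, e, h2, rfl, h4⟩
    obtain ⟨hs, hg0, hgu, hgs, hau, hac, -⟩ := dec (s := (key u e).1) (g := (key u e).2.1)
      (a := (key u e).2.2) hu0 h2 rfl
    rw [mem_product, mem_product, Nat.mem_divisors, mem_range]
    refine ⟨?_, ⟨hgu, hu0.ne'⟩, hau⟩
    rcases hs with hs | hs <;> rw [hs] <;> simp

/-- **The general statement.** -/
theorem ratio {u : ℕ} (hu : 14 ∣ u) (hu0 : 0 < u) {N : ℤ → ℕ} (hNF : HtFn u N) {T : ℤ → Prop}
    (hT : ClassFn u T) {e₀ : ℤ} (he₀ : Squarefree e₀) (hTe₀ : T e₀) (P : ℤ → Prop) (c : ℝ)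
    (hP : ∀ (s : ℤ) (g a : ℕ), (s = 1 ∨ s = -1) → Squarefree g → g ∣ u → Cp u a →
      ∀ ε : ℝ, 0 < ε → ∀ᶠ Y : ℕ in atTop,
        |(((GS u a Y).filter fun m : ℕ => P (s * g * m)).card : ℝ) - c * ((GS u a Y).card : ℝ)| ≤
          ε * Y) :
    Tendsto (fun X : ℕ => ((cnt N (fun e => T e ∧ P e) X : ℕ) : ℝ) / ((cnt N T X : ℕ) : ℝ)) atTop
      (𝓝 c) := by
  obtain ⟨F, hF, hN⟩ := hNF
  have e1 : ∀ X, cnt N T X = ∑ k ∈ KK' u T, (GS u k.2.2 (X / F k.1 k.2.1 k.2.2)).card := by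
    intro X
    have h := cnt_eq hu hu0 hF hN hT X (fun _ => True) T (fun e => (and_true _).symm.to_iff)
    rw [h]
    refine Finset.sum_congr rfl fun k _ => ?_
    rw [Finset.filter_true]
  have e2 := fun X => cnt_eq hu hu0 hF hN hT X P (fun e => T e ∧ P e) (fun _ => Iff.rfl)
  have hK : ∀ k ∈ KK' u T, (k.1 = 1 ∨ k.1 = -1) ∧ Squarefree k.2.1 ∧ k.2.1 ∣ u ∧ Cp u k.2.2 := by
    intro k hk
    obtain ⟨s, g, a⟩ := k
    rw [KK', mem_filter] at hk
    obtain ⟨-, e₁, he₁, hke, hTe⟩ := hk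
    obtain ⟨hs, hg0, hgu, hgs, hau, hac, -⟩ := dec hu0 he₁ hke
    exact ⟨hs, hgs, hgu, ⟨hu, hu0, hau, hac⟩⟩
  have hFpos : ∀ k ∈ KK' u T, 0 < F k.1 k.2.1 k.2.2 := by
    intro k hk
    exact lt_of_lt_of_le (Nat.pos_of_ne_zero (hK k hk).2.1.ne_zero) (hF _ _ _)
  -- the key of `e₀`
  have hk₀ : key u e₀ ∈ KK' u T := by
    obtain ⟨hs, hg0, hgu, hgs, hau, hac, -⟩ := dec (s := (key u e₀).1) (g := (key u e₀).2.1)
      (a := (key u e₀).2.2) hu0 he₀ rfl
    rw [KK', mem_filter, mem_product, mem_product, Nat.mem_divisors, mem_range]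
    refine ⟨⟨?_, ⟨hgu, hu0.ne'⟩, hau⟩, e₀, he₀, rfl, hTe₀⟩
    rcases hs with hs | hs <;> rw [hs] <;> simp
  set k₀ := key u e₀ with hk₀d
  set F₀ := F k₀.1 k₀.2.1 k₀.2.2 with hF₀
  have hF₀0 : 0 < F₀ := hFpos k₀ hk₀
  -- lower bound
  have hlow : ∀ᶠ X : ℕ in atTop, 1 / (7 * (u : ℝ) * F₀) * X ≤ ((cnt N T X : ℕ) : ℝ) ∧ 1 ≤ X := by
    have h1 := (tendsto_div_nat hF₀0).eventually (card_low (hK k₀ hk₀).2.2.2)
    have hg0 : (0 : ℝ) < F₀ := by exact_mod_cast hF₀0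
    have hu0' : (0 : ℝ) < u := by exact_mod_cast hu0
    filter_upwards [h1, eventually_ge_atTop (2 * F₀), eventually_ge_atTop 1] with X hX hX2 hX1
    refine ⟨?_, hX1⟩
    obtain ⟨h3, h4⟩ := hX
    have h5 : (0 : ℝ) < ((X / F₀ : ℕ) : ℝ) := by exact_mod_cast h4
    rw [le_div_iff₀ h5] at h3
    have h6 : (X : ℝ) / F₀ - 1 ≤ ((X / F₀ : ℕ) : ℝ) := by
      have := Nat.lt_floor_add_one ((X : ℝ) / F₀)
      rw [Nat.floor_div_eq_div] at this
      linarith
    have h7 : (2 : ℝ) ≤ X / F₀ := by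
      rw [le_div_iff₀ hg0]
      exact_mod_cast hX2
    have h8 : 1 / (7 * (u : ℝ) * F₀) * X = 2 / (7 * u) * (X / F₀ / 2) := by
      field_simp
    rw [h8]
    have h9 : ((GS u k₀.2.2 (X / F₀)).card : ℝ) ≤ ((cnt N T X : ℕ) : ℝ) := by
      rw [e1]
      exact_mod_cast Finset.single_le_sum
        (f := fun k : ℤ × ℕ × ℕ => (GS u k.2.2 (X / F k.1 k.2.1 k.2.2)).card)
        (fun _ _ => Nat.zero_le _) hk₀
    refine le_trans (le_trans ?_ h3) h9
    apply mul_le_mul_of_nonneg_left _ (by positivity)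
    linarith
  -- the error
  have herr : ∀ ε : ℝ, 0 < ε → ∀ᶠ X : ℕ in atTop,
      |((cnt N (fun e => T e ∧ P e) X : ℕ) : ℝ) - c * ((cnt N T X : ℕ) : ℝ)| ≤ ε * X := by
    intro ε hε
    set n : ℝ := ((KK' u T).card : ℝ) with hn
    have hn0 : 0 ≤ n := Nat.cast_nonneg _
    have hall : ∀ᶠ X : ℕ in atTop, ∀ k ∈ KK' u T,
        |(((GS u k.2.2 (X / F k.1 k.2.1 k.2.2)).filter fun m : ℕ => P (k.1 * k.2.1 * m)).card : ℝ) -
          c * ((GS u k.2.2 (X / F k.1 k.2.1 k.2.2)).card : ℝ)| ≤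
          ε / (n + 1) * ((X / F k.1 k.2.1 k.2.2 : ℕ) : ℝ) := by
      rw [Filter.eventually_all_finset]
      intro k hk
      obtain ⟨q1, q2, q3, q4⟩ := hK k hk
      exact (tendsto_div_nat (hFpos k hk)).eventually
        (hP k.1 k.2.1 k.2.2 q1 q2 q3 q4 (ε / (n + 1)) (by positivity))
    filter_upwards [hall] with X hX
    rw [e1, e2]
    push_cast
    rw [Finset.mul_sum, ← Finset.sum_sub_distrib]
    refine (Finset.abs_sum_le_sum_abs _ _).trans ((Finset.sum_le_sum hX).trans ?_)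
    have h1 : ∀ k ∈ KK' u T, ε / (n + 1) * ((X / F k.1 k.2.1 k.2.2 : ℕ) : ℝ) ≤ ε / (n + 1) * X := by
      intro k _
      have : ((X / F k.1 k.2.1 k.2.2 : ℕ) : ℝ) ≤ X := by exact_mod_cast Nat.div_le_self _ _
      exact mul_le_mul_of_nonneg_left this (by positivity)
    refine (Finset.sum_le_card_nsmul _ _ _ h1).trans ?_
    rw [nsmul_eq_mul, ← hn]
    have h2 : n * (ε / (n + 1) * X) = (n / (n + 1)) * (ε * X) := by ring
    rw [h2]
    have h3 : n / (n + 1) ≤ 1 := by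
      rw [div_le_one (by positivity)]
      linarith
    exact mul_le_of_le_one_left (by positivity) h3
  rw [Metric.tendsto_atTop]
  intro ε hε
  have hg0 : (0 : ℝ) < F₀ := by exact_mod_cast hF₀0
  have hu0' : (0 : ℝ) < u := by exact_mod_cast hu0
  obtain ⟨X₀, h0⟩ := eventually_atTop.1 ((herr (ε / (2 * (7 * u * F₀))) (by positivity)).and hlow)
  refine ⟨X₀, fun X hX => ?_⟩
  obtain ⟨h1, h2, h3⟩ := h0 X hX
  have hX0 : (0 : ℝ) < X := by exact_mod_cast h3
  have hS : (0 : ℝ) < ((cnt N T X : ℕ) : ℝ) := lt_of_lt_of_le (by positivity) h2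
  rw [Real.dist_eq]
  have e : ((cnt N (fun e => T e ∧ P e) X : ℕ) : ℝ) / ((cnt N T X : ℕ) : ℝ) - c =
      (((cnt N (fun e => T e ∧ P e) X : ℕ) : ℝ) - c * ((cnt N T X : ℕ) : ℝ)) /
        ((cnt N T X : ℕ) : ℝ) := by
    field_simp
  rw [e, abs_div, abs_of_pos hS, div_lt_iff₀ hS]
  have h4 : ε / (2 * (7 * u * F₀)) * X < ε * ((cnt N T X : ℕ) : ℝ) := by
    have h5 : ε * (1 / (7 * (u : ℝ) * F₀) * X) = 2 * (ε / (2 * (7 * u * F₀)) * X) := by
      field_simp
    have h6 : 0 < ε / (2 * (7 * u * F₀)) * X := by positivity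
    have := mul_le_mul_of_nonneg_left h2 hε.le
    linarith
  linarith

/-! ### The square-free part -/

theorem sqf_prime {n p : ℕ} (h : p ∈ n.primeFactors.filter fun p => n.factorization p % 2 = 1) :
    p.Prime := Nat.prime_of_mem_primeFactors (mem_filter.1 h).1

theorem sqf_pf (n : ℕ) :
    (sqf n).primeFactors = n.primeFactors.filter fun p => n.factorization p % 2 = 1 :=
  Nat.primeFactors_prod fun p hp => sqf_prime hp

theorem sqf_sq (n : ℕ) : Squarefree (sqf n) := by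
  refine Finset.squarefree_prod_of_pairwise_isCoprime (fun p hp q hq hpq => ?_)
    fun p hp => (sqf_prime hp).prime.squarefree
  rw [Function.onFun, ← Nat.coprime_iff_isRelPrime]
  exact (Nat.coprime_primes (sqf_prime hp) (sqf_prime hq)).2 hpq

theorem sqf_dvd {n p : ℕ} (hp : p.Prime) (h : p ∣ sqf n) : p ∣ n := by
  have h1 : p ∈ (sqf n).primeFactors := Nat.mem_primeFactors.2 ⟨hp, h, (sqf_sq n).ne_zero⟩
  rw [sqf_pf, mem_filter] at h1
  exact Nat.dvd_of_mem_primeFactors h1.1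

theorem sqf_mem {n p : ℕ} : p ∈ (sqf n).primeFactors ↔ n.factorization p % 2 = 1 := by
  rw [sqf_pf, mem_filter]
  constructor
  · exact fun h => h.2
  · intro h
    refine ⟨?_, h⟩
    rw [← Nat.support_factorization, Finsupp.mem_support_iff]
    omega

theorem sqf_mul {A m : ℕ} (hA : A ≠ 0) (hm : Squarefree m) (hc : Nat.Coprime A m) :
    sqf (A * m) = sqf A * m := by
  have hm0 : m ≠ 0 := hm.ne_zero
  have hfac : ∀ p, (A * m).factorization p = A.factorization p + m.factorization p := by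
    intro p
    rw [Nat.factorization_mul hA hm0]
    rfl
  have hno : ∀ p, p.Prime → p ∣ m → ¬ p ∣ A := by
    intro p hp h h'
    have := Nat.dvd_gcd h' h
    rw [hc] at this
    exact hp.one_lt.ne' (Nat.dvd_one.1 this)
  have hd : Disjoint (A.primeFactors.filter fun p => A.factorization p % 2 = 1)
      m.primeFactors := by
    rw [Finset.disjoint_left]
    intro p h1 h2
    exact hno p (Nat.prime_of_mem_primeFactors h2) (Nat.dvd_of_mem_primeFactors h2)
      (Nat.dvd_of_mem_primeFactors (mem_filter.1 h1).1)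
  have hs : ((A * m).primeFactors.filter fun p => (A * m).factorization p % 2 = 1) =
      (A.primeFactors.filter fun p => A.factorization p % 2 = 1) ∪ m.primeFactors := by
    ext p
    rw [mem_union, mem_filter, mem_filter, hfac, Nat.Coprime.primeFactors_mul hc, mem_union]
    constructor
    · rintro ⟨h1 | h1, h3⟩
      · left
        have hp := Nat.prime_of_mem_primeFactors h1
        have hpm : ¬ p ∣ m := fun h' => hno p hp h' (Nat.dvd_of_mem_primeFactors h1)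
        rw [Nat.factorization_eq_zero_of_not_dvd hpm, add_zero] at h3
        exact ⟨h1, h3⟩
      · right
        exact h1
    · rintro (⟨h1, h3⟩ | h1)
      · have hp := Nat.prime_of_mem_primeFactors h1
        have hpm : ¬ p ∣ m := fun h' => hno p hp h' (Nat.dvd_of_mem_primeFactors h1)
        rw [Nat.factorization_eq_zero_of_not_dvd hpm, add_zero]
        exact ⟨Or.inl h1, h3⟩
      · have hp := Nat.prime_of_mem_primeFactors h1
        have hpm := Nat.dvd_of_mem_primeFactors h1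
        have h1' : m.factorization p = 1 := by
          have a1 := hm.natFactorization_le_one p
          have a2 := (hp.dvd_iff_one_le_factorization hm0).1 hpm
          omega
        rw [Nat.factorization_eq_zero_of_not_dvd (hno p hp hpm), h1']
        exact ⟨Or.inr h1, rfl⟩
  unfold sqf
  rw [hs, prod_union hd, Nat.prod_primeFactors_of_squarefree hm]

theorem sqf_inj {g d d' : ℕ} (hg : g ≠ 0) (hd : d ≠ 0) (hd' : d' ≠ 0)
    (h : sqf (d * g) = sqf (d' * g)) : sqf d = sqf d' := by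
  have hf : ∀ (e : ℕ), e ≠ 0 → ∀ p, (e * g).factorization p =
      e.factorization p + g.factorization p := by
    intro e he p
    rw [Nat.factorization_mul he hg]
    rfl
  have h2 : (sqf d).primeFactors = (sqf d').primeFactors := by
    ext p
    have h3 : p ∈ (sqf (d * g)).primeFactors ↔ p ∈ (sqf (d' * g)).primeFactors := by rw [h]
    rw [sqf_mem, sqf_mem, hf d hd, hf d' hd'] at h3
    rw [sqf_mem, sqf_mem]
    omega
  rw [← Nat.prod_primeFactors_of_squarefree (sqf_sq d), h2,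
    Nat.prod_primeFactors_of_squarefree (sqf_sq d')]

/-! ### The counts -/

/-- the bijection -/
theorem GS_card {u a : ℕ} (hc : Cp u a) (h4 : 4 ∣ u) (X : ℕ) (G : Finset ℕ → Prop) :
    ((SE u a X).filter G).card = ((GS u a X).filter fun D => G D.primeFactors).card := by
  have hg : Cg 1 u a := ⟨hc, h4, squarefree_one, one_dvd _, Nat.coprime_one_left 14⟩
  have h1 := Pool.Agent.L0h74.AP.card_eq hg X G
  rw [one_mul, one_mul] at h1
  have h2 : GSg 1 u a X = GS u a X := by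
    unfold GSg GS
    rw [one_mul, one_mul]
  rw [h2] at h1
  exact h1

/-- **The joint law of the numbers `g m`.** -/
theorem base (hDR : S_DR) (hHYR : S_HYR) (hTRR : S_TRR) {u a : ℕ} (hc : Cp u a)
    (h56 : 56 ∣ u) {t : ℕ} (g : Fin t → ℕ) (hsq : ∀ l, Squarefree (g l))
    (hu : ∀ l p, p.Prime → p ∣ g l → p ∣ u) (hinj : Function.Injective g) (β : Fin t → Bool) :
    ∀ ε : ℝ, 0 < ε → ∀ᶠ Y : ℕ in atTop,
      |(((GS u a Y).filter fun m => ∀ l, (NQ (g l * m) ↔ β l = true)).card : ℝ) -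
        amR β * ((GS u a Y).card : ℝ)| ≤ ε * Y := by
  obtain ⟨n, cl, x, hy⟩ := hHYR u a hc h56 t g hsq hu hinj
  have h4 : 4 ∣ u := (by norm_num : 4 ∣ 56).trans h56
  intro ε hε
  filter_upwards [hDR t n _ u a cl x hy β ε hε] with Y hY
  have h1 := GS_card hc h4 Y (PatR (fun l => sysR (g l) a) β)
  have h2 := GS_card hc h4 Y fun _ => True
  rw [Finset.filter_true, Finset.filter_true] at h2
  rw [h1, h2] at hY
  have h3 : (GS u a Y).filter (fun m => ∀ l, (NQ (g l * m) ↔ β l = true)) =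
      (GS u a Y).filter fun D => PatR (fun l => sysR (g l) a) β D.primeFactors := by
    refine Finset.filter_congr fun m hm => ?_
    rw [GS, mem_filter] at hm
    unfold PatR
    refine forall_congr' fun l => ?_
    rw [hTRR.1 u a (g l) m hc h56 (hsq l) (hu l) hm.2.1 hm.2.2]
  rw [h3]
  exact hY

theorem flt (A : Finset ℕ) (P Q : ℕ → Prop) (i : DecidablePred P) (j : DecidablePred Q)
    (h : ∀ D ∈ A, (P D ↔ Q D)) : (A.filter P).card = (A.filter Q).card :=
  congrArg Finset.card (Finset.filter_congr h)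

/-- the count of the positive integers -/
theorem cnt_nat {T : ℤ → Prop} (hT : ∀ e, T e → 0 < e) (X : ℕ) :
    cnt Int.natAbs T X = ((Finset.Icc 1 X).filter fun D : ℕ => Squarefree D ∧ T (D : ℤ)).card := by
  unfold cnt
  refine (Finset.card_bij' (fun (e : ℤ) _ => e.natAbs) (fun (D : ℕ) _ => (D : ℤ)) ?_ ?_ ?_ ?_)
  · intro e he
    rw [mem_filter, mem_Icc] at he
    rw [mem_filter, mem_Icc]
    have h0 := hT e he.2.2.2
    refine ⟨⟨by omega, he.2.2.1⟩, Int.squarefree_natAbs.2 he.2.1, ?_⟩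
    rw [Int.natAbs_of_nonneg h0.le]
    exact he.2.2.2
  · intro D hD
    rw [mem_filter, mem_Icc] at hD
    rw [mem_filter, mem_Icc]
    refine ⟨⟨by omega, by omega⟩, Int.squarefree_natCast.2 hD.2.1, ?_, hD.2.2⟩
    rw [Int.natAbs_natCast]
    exact hD.1.2
  · intro e he
    rw [mem_filter, mem_Icc] at he
    exact Int.natAbs_of_nonneg (hT e he.2.2.2).le
  · intro D _
    exact Int.natAbs_natCast D

theorem ht_natAbs (u : ℕ) : HtFn u Int.natAbs := by
  refine ⟨fun _ g _ => g, fun _ _ _ => le_rfl, ?_⟩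
  intro s g m hs
  rw [Int.natAbs_mul, Int.natAbs_mul, Int.natAbs_natCast, Int.natAbs_natCast]
  rcases hs with rfl | rfl
  · rw [Int.natAbs_one, one_mul]
  · rw [Int.natAbs_neg, Int.natAbs_one, one_mul]

theorem classFn_of {u : ℕ} (hu0 : 0 < u) {T : ℤ → Prop}
    (h : ∀ (s : ℤ) (g m m' : ℕ), (s = 1 ∨ s = -1) → 0 < g → g ∣ u → 0 < m → 0 < m' →
      Nat.Coprime m u → Nat.Coprime m' u → Squarefree m → Squarefree m' → m % u = m' % u →
      T (s * g * m) → T (s * g * m')) : ClassFn u T := by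
  intro e e' he he' hk
  obtain ⟨hs, hg0, hgu, -, -, -, m, hm, hm0, hma, hms, hmc⟩ := dec (s := (key u e).1)
    (g := (key u e).2.1) (a := (key u e).2.2) hu0 he rfl
  obtain ⟨-, -, -, -, -, -, m', hm', hm0', hma', hms', hmc'⟩ := dec (s := (key u e).1)
    (g := (key u e).2.1) (a := (key u e).2.2) hu0 he' hk.symm
  constructor
  · intro hT
    rw [hm] at hT
    rw [hm']
    exact h _ _ _ _ hs hg0 hgu hm0 hm0' hmc hmc' hms hms' (hma.trans hma'.symm) hT
  · intro hT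
    rw [hm'] at hT
    rw [hm]
    exact h _ _ _ _ hs hg0 hgu hm0' hm0 hmc' hmc hms' hms (hma'.trans hma.symm) hT

theorem natAbs_sgm {s : ℤ} (hs : s = 1 ∨ s = -1) (g m : ℕ) : (s * g * m : ℤ).natAbs = g * m := by
  rw [Int.natAbs_mul, Int.natAbs_mul, Int.natAbs_natCast, Int.natAbs_natCast]
  rcases hs with rfl | rfl <;> simp

/-- the condition on the integers -/
def TR {t : ℕ} (d : Fin t → ℕ) (q r : ℕ) (e : ℤ) : Prop :=
  0 < e ∧ e % (q : ℤ) = (r : ℤ) % (q : ℤ) ∧ ∀ l, sqf (d l * e.natAbs) % 8 ≠ 7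

theorem cop_of {u A m : ℕ} (hA : ∀ p, p.Prime → p ∣ A → p ∣ u) (hm : Nat.Coprime m u) :
    Nat.Coprime A m := by
  rw [Nat.coprime_iff_gcd_eq_one]
  by_contra hne
  obtain ⟨p, hp, hd⟩ := Nat.exists_prime_and_dvd hne
  have h1 := Nat.dvd_gcd (hd.trans (Nat.gcd_dvd_right _ _))
    (hA p hp (hd.trans (Nat.gcd_dvd_left _ _)))
  rw [hm] at h1
  exact hp.one_lt.ne' (Nat.dvd_one.1 h1)

theorem TR_cls {u q : ℕ} (hu0 : 0 < u) (h8 : 8 ∣ u) (hqu : q ∣ u) (r : ℕ) {t : ℕ} (d : Fin t → ℕ)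
    (hd0 : ∀ l, 0 < d l) (hd : ∀ l p, p.Prime → p ∣ d l → p ∣ u) : ClassFn u (TR d q r) := by
  refine classFn_of hu0 ?_
  rintro s g m m' hs hg hgu hm hm' hc hc' hms hms' hmm ⟨hT1, hT2, hT3⟩
  have hg' : (0 : ℤ) < g := by exact_mod_cast hg
  have hm0 : (0 : ℤ) < m := by exact_mod_cast hm
  have hm0' : (0 : ℤ) < m' := by exact_mod_cast hm'
  refine ⟨?_, ?_, ?_⟩
  · rcases hs with rfl | rfl
    · positivity
    · exfalso
      have h1 : (-1 * (g : ℤ) * m) = -(g * m) := by ring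
      rw [h1] at hT1
      have h2 : (0 : ℤ) < g * m := mul_pos hg' hm0
      linarith
  · have h1 : (m : ℤ) ≡ (m' : ℤ) [ZMOD (q : ℤ)] := by
      have h2 : m ≡ m' [MOD q] := Nat.ModEq.of_dvd hqu hmm
      exact (Int.natCast_modEq_iff).2 h2
    have h3 : (s * g * m : ℤ) ≡ (s * g * m' : ℤ) [ZMOD (q : ℤ)] := Int.ModEq.mul_left _ h1
    have h4 : (s * g * m : ℤ) ≡ (r : ℤ) [ZMOD (q : ℤ)] := hT2
    exact h3.symm.trans h4
  · intro l
    have h1 := hT3 l
    rw [natAbs_sgm hs, ← mul_assoc] at h1 ⊢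
    have hA : d l * g ≠ 0 := (Nat.mul_pos (hd0 l) hg).ne'
    have hAu : ∀ p, p.Prime → p ∣ d l * g → p ∣ u := by
      intro p hp h
      rcases (Nat.Prime.dvd_mul hp).1 h with h | h
      · exact hd l p hp h
      · exact h.trans hgu
    rw [sqf_mul hA hms (cop_of hAu hc)] at h1
    rw [sqf_mul hA hms' (cop_of hAu hc')]
    have h2 : m % 8 = m' % 8 := Nat.ModEq.of_dvd h8 hmm
    rw [Nat.mul_mod] at h1 ⊢
    rw [← h2]
    exact h1

/-- LAWR -/
theorem t_LAWR : S_DR → S_HYR → S_TRR → S_LAWR := by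
  intro hDR hHYR hTRR t d hd0 hinj q r hq hm₀ β
  obtain ⟨m₀, hm₀⟩ := hm₀
  set u : ℕ := 56 * (q * ∏ l, d l) with hu
  have hP0 : 0 < ∏ l, d l := Finset.prod_pos fun l _ => hd0 l
  have hu0 : 0 < u := by positivity
  have h56 : 56 ∣ u := Dvd.intro _ rfl
  have h14 : 14 ∣ u := (by norm_num : 14 ∣ 56).trans h56
  have h8 : 8 ∣ u := (by norm_num : 8 ∣ 56).trans h56
  have hqu : q ∣ u := Dvd.dvd.mul_left (Dvd.intro _ rfl) _
  have hdu : ∀ l p, p.Prime → p ∣ d l → p ∣ u := fun l p _ hp =>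
    Dvd.dvd.mul_left (Dvd.dvd.mul_left (hp.trans (Finset.dvd_prod_of_mem
      (fun l => d l) (Finset.mem_univ l))) _) _
  have hnat : ∀ D : ℕ, 0 < D → (TR d q r (D : ℤ) ↔
      (D % q = r % q ∧ ∀ l, sqf (d l * D) % 8 ≠ 7)) := by
    intro D hD
    unfold TR
    rw [Int.natAbs_natCast]
    constructor
    · rintro ⟨-, h2, h3⟩
      refine ⟨?_, h3⟩
      exact_mod_cast h2
    · rintro ⟨h2, h3⟩
      refine ⟨by exact_mod_cast hD, ?_, h3⟩
      exact_mod_cast h2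
  have hm0 : 0 < m₀ := Nat.pos_of_ne_zero hm₀.1.ne_zero
  have key : Tendsto (fun X : ℕ =>
      ((cnt Int.natAbs (fun e => TR d q r e ∧
        ∀ l, (NQ (sqf (d l * e.natAbs)) ↔ β l = true)) X : ℕ) : ℝ) /
      ((cnt Int.natAbs (TR d q r) X : ℕ) : ℝ)) atTop (𝓝 (amR β)) := by
    refine ratio h14 hu0 (ht_natAbs u) (TR_cls hu0 h8 hqu r d hd0 hdu)
      (Int.squarefree_natCast.2 hm₀.1) ((hnat m₀ hm0).2 hm₀.2)
      (fun e => ∀ l, (NQ (sqf (d l * e.natAbs)) ↔ β l = true)) (amR β) ?_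
    intro s g a hs hg hgu hc ε hε
    have hg0 : 0 < g := Nat.pos_of_ne_zero hg.ne_zero
    have hA : ∀ l, d l * g ≠ 0 := fun l => (Nat.mul_pos (hd0 l) hg0).ne'
    have hAu : ∀ l p, p.Prime → p ∣ d l * g → p ∣ u := by
      intro l p hp h
      rcases (Nat.Prime.dvd_mul hp).1 h with h | h
      · exact hdu l p hp h
      · exact h.trans hgu
    have hi : Function.Injective fun l => sqf (d l * g) := fun l l' hll =>
      hinj (sqf_inj hg0.ne' (hd0 l).ne' (hd0 l').ne' hll)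
    filter_upwards [base hDR hHYR hTRR hc h56 (fun l => sqf (d l * g)) (fun l => sqf_sq _)
      (fun l p hp h => hAu l p hp (sqf_dvd hp h)) hi β ε hε] with Y hY
    refine le_of_eq_of_le ?_ hY
    refine congrArg (fun n : ℕ => |(n : ℝ) - amR β * ((GS u a Y).card : ℝ)|) ?_
    refine flt _ _ _ _ _ fun m hm => ?_
    rw [GS, mem_filter] at hm
    have hcop : Nat.Coprime m u := by
      rw [Nat.coprime_iff_gcd_eq_one, Nat.gcd_comm, Nat.gcd_rec, hm.2.2]
      exact hc.cop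
    refine forall_congr' fun l => ?_
    rw [natAbs_sgm hs, ← mul_assoc, sqf_mul (hA l) hm.2.1 (cop_of (hAu l) hcop)]
  refine key.congr fun X => ?_
  rw [cnt_nat (T := TR d q r) (fun e he => he.1) X,
    cnt_nat (T := fun e => TR d q r e ∧ ∀ l, (NQ (sqf (d l * e.natAbs)) ↔ β l = true))
      (fun e he => he.1.1) X]
  unfold nR
  refine congrArg₂ (fun a b : ℕ => (a : ℝ) / (b : ℝ)) ?_ ?_
  · refine flt _ _ _ _ _ fun D hD => ?_
    have h1 := hnat D (mem_Icc.1 hD).1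
    rw [h1, Int.natAbs_natCast]
    constructor
    · rintro ⟨h2, h3, h4⟩
      refine ⟨⟨h2, h3⟩, fun l => ?_⟩
      rw [← hTRR.2 (sqf (d l * D)) (sqf_sq _) (h3.2 l)]
      exact h4 l
    · rintro ⟨⟨h2, h3⟩, h4⟩
      refine ⟨h2, h3, fun l => ?_⟩
      rw [hTRR.2 (sqf (d l * D)) (sqf_sq _) (h3.2 l)]
      exact h4 l
  · refine flt _ _ _ _ _ fun D hD => ?_
    have h1 := hnat D (mem_Icc.1 hD).1
    rw [h1]
    constructor
    · rintro ⟨h2, h3⟩
      exact ⟨⟨h2, h3⟩, trivial⟩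
    · rintro ⟨⟨h2, h3⟩, h4⟩
      exact ⟨h2, h3⟩

end Pool.Agent.L0h57.JR
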